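import Pool.Agent.H224Z.Sync2
import Pool.Agent.Helper292.ForceCH

/-!
Consistently, properties (0), (1), (2), (12), (13), (18), (19), (20) imply none of
(15), (14), (6), (5).
-/

namespace Pool.Agent.Results.MP_b17faa_gt.AS1GammaNotSfinTauOmega

open Pool.Agent.Helper185.Sel Pool.Agent.H224Z

theorem sfin_of_s1 {X : Type*} {A B : Set (Set (Set X))} (h : S1 A B) : Sfin A B := by
  intro U hU
  obtain ⟨V, h1, h2⟩ := h U hU
  refine ⟨fun n => {V n}, fun n => ⟨Set.finite_singleton _, Set.singleton_subset_iff.2 (h1 n)⟩, ?_⟩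
  rwa [Set.iUnion_singleton_eq_range]

theorem ufin_of_s1 {X : Type*} {A B : Set (Set (Set X))} (h : S1 A B) : Ufin A B := by
  intro U hU _
  obtain ⟨V, h1, h2⟩ := h U hU
  refine ⟨fun n => {V n}, fun n => ⟨Set.finite_singleton _, Set.singleton_subset_iff.2 (h1 n)⟩, ?_⟩
  simpa using h2

theorem result :
    (∃ (P : Type) (_ : Preorder P), Nonempty P ∧ ∀ p : P,
      p ∈ Pool.Agent.Helper292.ForceCH.OmegaOnePreserved P ∧
      p ∈ Pool.Agent.Helper292.ForceCH.CHHolds P) ∧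
    (Cardinal.aleph 1 = Cardinal.continuum.{0} →
      ∃ X : Set ℝ, X.Infinite ∧
        S1 (GammaOf (OpenFam X)) (GammaOf (OpenFam X)) ∧
        S1 (GammaOf (OpenFam X)) (TauOf (OpenFam X)) ∧
        S1 (GammaOf (OpenFam X)) (OmegaOf (OpenFam X)) ∧
        Sfin (GammaOf (OpenFam X)) (TauOf (OpenFam X)) ∧
        Sfin (GammaOf (OpenFam X)) (OmegaOf (OpenFam X)) ∧
        Ufin (GammaOf (OpenFam X)) (GammaOf (OpenFam X)) ∧
        Ufin (GammaOf (OpenFam X)) (TauOf (OpenFam X)) ∧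
        Ufin (GammaOf (OpenFam X)) (OmegaOf (OpenFam X)) ∧
        ¬ Sfin (TauOf (OpenFam X)) (OmegaOf (OpenFam X)) ∧
        ¬ Sfin (TauOf (OpenFam X)) (TauOf (OpenFam X)) ∧
        ¬ S1 (TauOf (OpenFam X)) (OmegaOf (OpenFam X)) ∧
        ¬ S1 (TauOf (OpenFam X)) (TauOf (OpenFam X))) := by
  refine ⟨?_, fun hCH => ?_⟩
  · obtain ⟨P, i, h1, h2⟩ := Pool.Agent.Helper292.ForceCH.exists_forcing
    exact ⟨P, i, h1, fun p => ⟨(h2 p).1, (h2 p).2.2⟩⟩
  · obtain ⟨X, h0, h1, h2⟩ := Pool.Agent.H224Z.Sync.main hCH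
    have : Nonempty X := h0.nonempty.to_subtype
    have e1 : GammaOf (OpenFam X) ⊆ TauOf (OpenFam X) := gamma_sub_tau
    have e2 : TauOf (OpenFam X) ⊆ OmegaOf (OpenFam X) := tau_sub_omega
    have h3 := h1.mono_right e1
    have h4 := h3.mono_right e2
    refine ⟨X, h0, h1, h3, h4, sfin_of_s1 h3, sfin_of_s1 h4, ufin_of_s1 h1, ufin_of_s1 h3,
      ufin_of_s1 h4, h2, fun h => h2 fun U hU => ?_, fun h => h2 (sfin_of_s1 h),
      fun h => h2 (sfin_of_s1 (h.mono_right e2))⟩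
    obtain ⟨F, g1, g2⟩ := h U hU
    exact ⟨F, g1, e2 g2⟩

end Pool.Agent.Results.MP_b17faa_gt.AS1GammaNotSfinTauOmega
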