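import Pool.Agent.H224Z.NotHur
import Pool.Agent.Helper292.ForceCH

/-!
Consistently, properties (16), (14), (12) imply none of (18), (0), (1), (4), (5), (8), (9).
-/

namespace Pool.Agent.Results.MP_b17faa_gt.ASfinOmegaTauNotHurewicz

open Pool.Agent.Helper185.Sel Pool.Agent.H224Z

theorem result :
    (∃ (P : Type) (_ : Preorder P), Nonempty P ∧ ∀ p : P,
      p ∈ Pool.Agent.Helper292.ForceCH.OmegaOnePreserved P ∧
      p ∈ Pool.Agent.Helper292.ForceCH.CHHolds P) ∧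
    (Cardinal.aleph 1 = Cardinal.continuum.{0} →
      ∃ X : Set ℝ, X.Infinite ∧
        Sfin (OmegaOf (OpenFam X)) (TauOf (OpenFam X)) ∧
        Sfin (TauOf (OpenFam X)) (TauOf (OpenFam X)) ∧
        Sfin (GammaOf (OpenFam X)) (TauOf (OpenFam X)) ∧
        ¬ Ufin (GammaOf (OpenFam X)) (GammaOf (OpenFam X)) ∧
        ¬ S1 (GammaOf (OpenFam X)) (GammaOf (OpenFam X)) ∧
        ¬ S1 (GammaOf (OpenFam X)) (TauOf (OpenFam X)) ∧
        ¬ S1 (TauOf (OpenFam X)) (GammaOf (OpenFam X)) ∧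
        ¬ S1 (TauOf (OpenFam X)) (TauOf (OpenFam X)) ∧
        ¬ S1 (OmegaOf (OpenFam X)) (GammaOf (OpenFam X)) ∧
        ¬ S1 (OmegaOf (OpenFam X)) (TauOf (OpenFam X))) := by
  refine ⟨?_, fun hCH => ?_⟩
  · obtain ⟨P, i, h1, h2⟩ := Pool.Agent.Helper292.ForceCH.exists_forcing
    exact ⟨P, i, h1, fun p => ⟨(h2 p).1, (h2 p).2.2⟩⟩
  · obtain ⟨X, h0, h1, h2, h3⟩ := Pool.Agent.H224Z.NotHur.main hCH
    have : Nonempty X := h0.nonempty.to_subtype
    have e1 : GammaOf (OpenFam X) ⊆ TauOf (OpenFam X) := gamma_sub_tau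
    have e2 : TauOf (OpenFam X) ⊆ OmegaOf (OpenFam X) := tau_sub_omega
    exact ⟨X, h0, h1, fun U hU => h1 U fun n => e2 (hU n),
      fun U hU => h1 U fun n => e2 (e1 (hU n)), h2, fun h => h3 (h.mono_right e1), h3,
      fun h => h3 ((h.mono_right e1).mono_left e1), fun h => h3 (h.mono_left e1),
      fun h => h3 ((h.mono_right e1).mono_left (e1.trans e2)),
      fun h => h3 (h.mono_left (e1.trans e2))⟩

end Pool.Agent.Results.MP_b17faa_gt.ASfinOmegaTauNotHurewicz
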