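import Pool.Agent.H224Z.TauRoth

/-!
Property (16) of the table implies properties (10), (6), (2), (11), (7), (3).
-/

namespace Pool.Agent.Results.MP_b17faa_gt.ASfinOmegaTauRothberger

open Pool.Agent.Helper185.Sel

theorem result (X : Set ℝ) (hX : X.Infinite)
    (h : Sfin (OmegaOf (OpenFam X)) (TauOf (OpenFam X))) :
    S1 (OmegaOf (OpenFam X)) (OmegaOf (OpenFam X)) ∧
    S1 (TauOf (OpenFam X)) (OmegaOf (OpenFam X)) ∧
    S1 (GammaOf (OpenFam X)) (OmegaOf (OpenFam X)) ∧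
    S1 (CovOf (OpenFam X)) (CovOf (OpenFam X)) ∧
    S1 (TauOf (OpenFam X)) (CovOf (OpenFam X)) ∧
    S1 (GammaOf (OpenFam X)) (CovOf (OpenFam X)) := by
  have : Infinite X := hX.to_subtype
  have h1 := Pool.Agent.H224Z.TauRoth.s1_of_sfin (Pool.Agent.H224Z.TauRoth.thinBase_real X) h
  have h2 := Pool.Agent.H224Z.TauRoth.cov_of_omega h1
  refine ⟨h1, fun U hU => h1 U fun n => tau_sub_omega (hU n),
    fun U hU => h1 U fun n => tau_sub_omega (gamma_sub_tau (hU n)), h2,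
    fun U hU => h2 U fun n => ⟨(hU n).1, (hU n).2.1⟩,
    fun U hU => h2 U fun n => ⟨(hU n).1, (hU n).2.1⟩⟩

end Pool.Agent.Results.MP_b17faa_gt.ASfinOmegaTauRothberger
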